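import Pool.Agent.H937.QS.Stm2

open scoped Matrix TensorProduct
open Pool.Agent.H937.QS
universe u
namespace Pool.Agent.H722.QS.LOCC

/-- The adjugate of a matrix with entries in a subalgebra has its entries in the subalgebra. -/
theorem adj_mem {k M : Type u} [Field k] [Field M] [Algebra k M] {n : ℕ} (C : Subalgebra k M)
    (A : Matrix (Fin n) (Fin n) M) (hA : ∀ i j, A i j ∈ C) (i j : Fin n) :
    A.adjugate i j ∈ C := by
  have h2 := RingHom.map_adjugate (C.val : C →+* M) (Matrix.of fun i j => (⟨A i j, hA i j⟩ : C))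
  have h3 : A.adjugate = ((Matrix.of fun i j => (⟨A i j, hA i j⟩ : C)).adjugate).map
      (C.val : C →+* M) := h2.symm
  rw [h3]
  exact Subtype.property _

theorem mulVec_mem {k M : Type u} [Field k] [Field M] [Algebra k M] {n : ℕ} (C : Subalgebra k M)
    (A : Matrix (Fin n) (Fin n) M) (hA : ∀ i j, A i j ∈ C) (v : Fin n → M) (hv : ∀ i, v i ∈ C)
    (i : Fin n) : (A *ᵥ v) i ∈ C := by
  rw [Matrix.mulVec, dotProduct]
  exact sum_mem fun j _ => mul_mem (hA i j) (hv j)

theorem pow_mem {k M : Type u} [Field k] [Field M] [Algebra k M] {n : ℕ} (C : Subalgebra k M)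
    (A : Matrix (Fin n) (Fin n) M) (hA : ∀ i j, A i j ∈ C) (e : ℕ) :
    ∀ g : Fin n → M, (∀ i, (A ^ e *ᵥ g) i ∈ C) → ∀ i, A.det ^ e * g i ∈ C := by
  induction e with
  | zero =>
    intro g hg i
    have := hg i
    rw [pow_zero, Matrix.one_mulVec] at this
    rw [pow_zero, one_mul]
    exact this
  | succ e ih =>
    intro g hg i
    have h1 : ∀ i, (A ^ e *ᵥ (A *ᵥ g)) i ∈ C := by
      intro i
      rw [Matrix.mulVec_mulVec, ← pow_succ]
      exact hg i
    have h2 := ih (A *ᵥ g) h1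
    have h3 : ∀ i, (A *ᵥ (A.det ^ e • g)) i ∈ C := by
      intro i
      rw [Matrix.mulVec_smul]
      exact h2 i
    have h4 := mulVec_mem C A.adjugate (adj_mem C A hA) _ h3 i
    rw [Matrix.mulVec_mulVec, Matrix.adjugate_mul, Matrix.smul_mulVec, Matrix.one_mulVec] at h4
    have h5 : A.det ^ (e + 1) * g i = (A.det • A.det ^ e • g) i := by
      rw [Pi.smul_apply, Pi.smul_apply, smul_eq_mul, smul_eq_mul, pow_succ]
      ring
    rw [h5]
    exact h4

theorem t_LOCC : S_LOCC.{u} := by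
  intro k B M _ _ _ _ _ n ev m N hN hdet C hC u hu f hf
  obtain ⟨b, e, hb⟩ := hf
  refine ⟨e, ?_⟩
  have hun : IsUnit N.det := isUnit_iff_ne_zero.mpr hdet
  have hNN : N * N⁻¹ = 1 := Matrix.mul_nonsing_inv N hun
  set D : Matrix (Fin n) (Fin n) M := Matrix.diagonal (ev u) with hD
  set A : Matrix (Fin n) (Fin n) M := N⁻¹ * D * N with hAdef
  have hA : ∀ i l, A i l ∈ C := by
    intro i l
    have h1 : A i l = (N⁻¹ *ᵥ ev (u * m l)) i := by
      rw [hAdef, Matrix.mul_assoc, Matrix.mul_apply, Matrix.mulVec, dotProduct]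
      refine Finset.sum_congr rfl fun q _ => ?_
      rw [hD, Matrix.diagonal_mul, hN q l, map_mul, Pi.mul_apply]
    rw [h1]
    exact hC _ i
  have hAdet : A.det = ∏ q, ev u q := by
    rw [hAdef, Matrix.det_mul, Matrix.det_mul, hD, Matrix.det_diagonal, Matrix.det_nonsing_inv,
      mul_comm (Ring.inverse N.det), mul_assoc, Ring.inverse_mul_cancel _ hun, mul_one]
  have hstep : ∀ g : Fin n → M, A *ᵥ (N⁻¹ *ᵥ g) = N⁻¹ *ᵥ (D *ᵥ g) := by
    intro g
    rw [hAdef, Matrix.mulVec_mulVec, Matrix.mul_assoc, hNN, Matrix.mul_one,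
      ← Matrix.mulVec_mulVec]
  have hpow : ∀ (e : ℕ) (g : Fin n → M), A ^ e *ᵥ (N⁻¹ *ᵥ g) = N⁻¹ *ᵥ (fun q => g q * ev u q ^ e) := by
    intro e
    induction e with
    | zero =>
      intro g
      rw [pow_zero, Matrix.one_mulVec]
      simp
    | succ e ih =>
      intro g
      rw [pow_succ, ← Matrix.mulVec_mulVec, hstep, ih]
      refine congrArg _ (funext fun q => ?_)
      rw [hD, Matrix.mulVec_diagonal]
      ring
  have hfe : A ^ e *ᵥ (N⁻¹ *ᵥ f) = N⁻¹ *ᵥ ev b := by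
    rw [hpow e f]
    exact congrArg _ (funext fun q => hb q)
  have := pow_mem C A hA e (N⁻¹ *ᵥ f) (fun i => by rw [hfe]; exact hC b i)
  rw [hAdet] at this
  exact this

end Pool.Agent.H722.QS.LOCC
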